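import Pool.Agent.Helper63.PG.Basic

/-! # PG, module PRU: the pair rule -/

set_option autoImplicit false

namespace Pool.Agent.Helper62.PG

open Pool.Agent.Helper63.PG

variable {V : Type*}

private def Pth (G : SimpleGraph V) (R : Set V) (s t : V) (n : ℕ) (q : ℕ → V) : Prop :=
  q 0 = s ∧ q n = t ∧ (∀ i, 0 < i → i < n → q i ∈ R) ∧ ∀ i < n, G.Adj (q i) (q (i + 1))

private theorem exists_pth {G : SimpleGraph V} {R T U : Set V} (h : Lay G R T U) {s t : V}
    (hs : s ∈ T) (ht : t ∈ T) : ∃ n q, Pth G R s t n q := by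
  obtain ⟨r, hr, hsr⟩ := h.tR s hs
  obtain ⟨r', hr', htr⟩ := h.tR t ht
  obtain ⟨k, p, hp0, hpk, hpR, hpA⟩ := h.conn r hr r' hr'
  refine ⟨k + 2, fun i => if i = 0 then s else if i ≤ k + 1 then p (i - 1) else t, ?_, ?_, ?_, ?_⟩
  · simp
  · simp
  · intro i hi hi2
    simp only [if_neg (by omega : i ≠ 0), if_pos (by omega : i ≤ k + 1)]
    exact hpR _ (by omega)
  · intro i hi
    rcases Nat.eq_zero_or_pos i with h0 | h0
    · subst h0
      simp only [if_true, if_neg (by omega : 0 + 1 ≠ 0), if_pos (by omega : 0 + 1 ≤ k + 1)]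
      rw [show 0 + 1 - 1 = 0 by omega, hp0]
      exact hsr
    rcases Nat.lt_or_ge i (k + 1) with h1 | h1
    · simp only [if_neg (by omega : i ≠ 0), if_pos (by omega : i ≤ k + 1),
        if_neg (by omega : i + 1 ≠ 0), if_pos (by omega : i + 1 ≤ k + 1)]
      have := hpA (i - 1) (by omega)
      rwa [show i - 1 + 1 = i by omega] at this
    · have h2 : i = k + 1 := by omega
      subst h2
      simp only [if_neg (by omega : k + 1 ≠ 0), if_pos (le_refl (k + 1)),
        if_neg (by omega : k + 1 + 1 ≠ 0), if_neg (by omega : ¬ (k + 1 + 1 ≤ k + 1))]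
      rw [show k + 1 - 1 = k by omega, hpk]
      exact htr.symm

private theorem exists_ip {G : SimpleGraph V} {R T U : Set V} (h : Lay G R T U) {s t : V}
    (hs : s ∈ T) (ht : t ∈ T) (hst : s ≠ t) : ∃ n q, 2 ≤ n ∧ Pth G R s t n q ∧ IP G q n := by
  classical
  have hex : ∃ n, ∃ q, Pth G R s t n q := exists_pth h hs ht
  obtain ⟨q, hq⟩ := Nat.find_spec hex
  have hmin : ∀ k < Nat.find hex, ¬ ∃ q, Pth G R s t k q := fun k hk => Nat.find_min hex hk
  set n := Nat.find hex with hn
  have hn0 : n ≠ 0 := by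
    intro h0
    apply hst
    rw [← hq.1, ← hq.2.1, h0]
  have hn1 : n ≠ 1 := by
    intro h1
    have h2 := hq.2.2.2 0 (by omega)
    rw [hq.1, show 0 + 1 = n by omega, hq.2.1] at h2
    exact h.stab s hs t ht h2
  refine ⟨n, q, by omega, hq, ?_⟩
  intro i j hij hj
  constructor
  · intro hadj
    by_contra hne
    apply hmin (n - (j - i - 1)) (by omega)
    refine ⟨fun m => if m ≤ i then q m else q (m + (j - i - 1)), ?_, ?_, ?_, ?_⟩
    · simp only [if_pos (Nat.zero_le i)]
      exact hq.1
    · simp only [if_neg (by omega : ¬ (n - (j - i - 1) ≤ i))]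
      rw [show n - (j - i - 1) + (j - i - 1) = n by omega]
      exact hq.2.1
    · intro m hm0 hm
      by_cases hmi : m ≤ i
      · simp only [if_pos hmi]
        exact hq.2.2.1 _ hm0 (by omega)
      · simp only [if_neg hmi]
        exact hq.2.2.1 _ (by omega) (by omega)
    · intro m hm
      by_cases hmi : m ≤ i
      · by_cases hmi' : m + 1 ≤ i
        · simp only [if_pos hmi, if_pos hmi']
          exact hq.2.2.2 _ (by omega)
        · have : m = i := by omega
          subst this
          simp only [if_pos hmi, if_neg hmi']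
          rw [show m + 1 + (j - m - 1) = j by omega]
          exact hadj
      · simp only [if_neg hmi, if_neg (by omega : ¬ (m + 1 ≤ i))]
        have := hq.2.2.2 (m + (j - i - 1)) (by omega)
        rwa [show m + 1 + (j - i - 1) = m + (j - i - 1) + 1 by omega]
  · intro he
    rw [he]
    exact hq.2.2.2 i (by omega)

theorem hPRU {G : SimpleGraph V} {R T U : Set V} (h : Lay G R T U) : ∃ π, PRule G T U π := by
  have key : ∀ s t : V, ∃ k : ℕ, s ∈ T → t ∈ T → s ≠ t → ∀ (f : ℕ → V) (m : ℕ), IP G f m →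
      (∀ i ≤ m, f i ∈ U) → (∀ i ≤ m, (G.Adj s (f i) ↔ i = 0)) →
      (∀ i ≤ m, (G.Adj t (f i) ↔ i = m)) → m % 2 = k := by
    intro s t
    by_cases hst : s ∈ T ∧ t ∈ T ∧ s ≠ t
    · obtain ⟨hs, ht, hne⟩ := hst
      obtain ⟨n, q, hn, ⟨hq0, hqn, hqR, hqA⟩, hIP⟩ := exists_ip h hs ht hne
      refine ⟨n % 2, fun _ _ _ f m hf hU hsf htf => ?_⟩
      have hg : IP G (fun i => q (n - i)) (n - 1) := fun i j hij hj => hIP.rev i j hij (by omega)
      have hc : ∀ i ≤ m, ∀ j ≤ n - 1, (G.Adj (f i) ((fun i => q (n - i)) j) ↔ i = m ∧ j = 0) := by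
        intro i hi j hj
        change G.Adj (f i) (q (n - j)) ↔ _
        rcases Nat.eq_zero_or_pos j with hj0 | hj0
        · subst hj0
          rw [Nat.sub_zero, hqn, G.adj_comm, htf i hi]
          omega
        · constructor
          · intro hadj
            exact absurd hadj (h.anti _ (hU i hi) _ (hqR _ (by omega) (by omega)))
          · intro hh
            omega
      have hcat := IP.cat hf hg hc
      have hap := h.noh.apex hcat (by omega) (w := s) (by
        intro i hi
        rcases Nat.lt_or_ge m i with him | him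
        · rw [cat_gt him]
          change G.Adj s (q (n - (i - m - 1))) ↔ _
          rw [← hq0, hIP 0 _ (by omega) (by omega)]
          omega
        · rw [cat_le him, hsf i him]
          omega)
      rw [Nat.even_iff] at hap
      omega
    · exact ⟨0, fun h1 h2 h3 => absurd ⟨h1, h2, h3⟩ hst⟩
  choose π hπ using key
  exact ⟨π, fun s hs t ht hne f m hf hU hsf htf => hπ s t hs ht hne f m hf hU hsf htf⟩

end Pool.Agent.Helper62.PG
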